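import Pool.Agent.Q99.SML3.Main

/-!
# Powers of classical braids between virtual braids in a box of a diagram on a surface

Diagrams (starting library `Pool.Agent.H891R2.Jones.Diagram`): `Diagram P` (oriented diagrams with marked
points `P`; the arcs only say which marked points are joined, so these are diagrams of links in thickened
surfaces, that is, virtual link diagrams), `Diagram.fPoly` (the normalised bracket `(-A^{-3})^{w(D)} ⟨D⟩`, a
state sum in which all loops count equally), `Outer m` (the part of an oriented diagram outside a box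
through which `m` strands run, with arbitrary directions), `Outer.close` (fills the rest of the box with
vertical strands).

`Pool.Agent.Q99.SML.Defs`: `Word` (words in the letters `σ_j^{±1}`), `wperm m w` (the permutation of `w`;
`w` is pure if it is `1`).  `Pool.Agent.Q99.SML3.Defs`: `VWord` (words in the letters `σ_j^{±1}` and the
virtual crossings `v_j`), `familyV O w u n` (the product
`w_0^{n_0} u_0 w_1^{n_1} u_1 ⋯ w_{k-1}^{n_{k-1}} u_{k-1}` is drawn in the box of `O`).
-/

set_option autoImplicit false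

namespace Pool.Agent.Results.MP_7bc610_gt.BraidPowersVirtual

open Finset LaurentPolynomial Pool.Agent.H891R2.Jones Q99.SML Q99.SML3

/-- Let `O_i`, `i < r`, be outsides of boxes with `m_i` strands (parts of diagrams on arbitrary surfaces),
let `w_{i,j}`, `j < k`, be braid words, let `u_{i,j}` be arbitrary virtual braid words, let `P ≥ 1` be such
that all `w_{i,j}^P` are pure (`P = 1` if the `w_{i,j}` are pure), let `s ∈ ℤ^k`, and for `q ∈ ℤ^k` let
`K_i(q)` be the diagram obtained by drawing the product
`w_{i,0}^{n_0} u_{i,0} ⋯ w_{i,k-1}^{n_{k-1}} u_{i,k-1}`, `n = s + P q`, in the box of `O_i`. Let `c_i` and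
`g` be Laurent polynomials.

Either `∑ c_i f(K_i(q)) = g` for all `q ∈ ℤ^k`, or for all finite sets `A_0, …, A_{k-1}` of integers this
holds for at most `(∑ C(m_i, ⌊m_i / 2⌋)) ∑_j ∏_{l ≠ j} |A_l|` of the `q ∈ ∏ A_j`.

For `r = 1`, `c = g = 1`: all the `K(q)` have unit Jones polynomial, or for at most
`C(m, ⌊m/2⌋) ∑_j ∏_{l ≠ j} |A_l|` of the `q ∈ ∏ A_j` this is the case (for `k = 1`: for at most
`C(m, ⌊m/2⌋)` integers `q`). -/
theorem result {r k : ℕ} {m : Fin r → ℕ} (hm : ∀ i, 0 < m i) (O : ∀ i, Outer (m i))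
    (w : Fin r → Fin k → Word) (u : Fin r → Fin k → VWord) (P : ℕ)
    (hP : ∀ i j, wperm (m i) (w i j) ^ P = 1)
    (s : Fin k → ℤ) (c : Fin r → ℤ[T;T⁻¹]) (g : ℤ[T;T⁻¹]) :
    (∀ q : Fin k → ℤ,
        ∑ i, c i * (familyV (O i) (w i) (u i) (s + (P : ℤ) • q)).close.fPoly = g) ∨
      ∀ A : Fin k → Finset ℤ, {q : Fin k → ℤ | (∀ j, q j ∈ A j) ∧
          ∑ i, c i * (familyV (O i) (w i) (u i) (s + (P : ℤ) • q)).close.fPoly = g}.ncard ≤
        (∑ i, (m i).choose (m i / 2)) * ∑ j, ∏ l ∈ univ.erase j, #(A l) :=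
  count hm O w u P hP s c g

end Pool.Agent.Results.MP_7bc610_gt.BraidPowersVirtual
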