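import Pool.Agent.Q99.ET.Flype

/-!
# Unit Jones polynomials and flype classes of diagrams on surfaces

Diagrams are combinatorial, planar or not: diagrams on closed orientable surfaces, virtual link diagrams
(`Pool.Agent.H891R2.Jones.Diagram`: `Diagram`, `Diagram.IsClosed`, `Diagram.fPoly`, the normalised
bracket in which all loops of a state count equally; `Pool.Agent.H891R2.MT.Defs`: `UDiagram`,
`Orients D U`: `D` is the unoriented diagram `U` with directions).

`O : Sites k` is a diagram with `k` open boxes and any crossings outside them; `O.fill n` is the diagram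
in which the box `e` is filled with a row of `|n e|` crossings of the kind given by the sign of `n e` (two
vertical strands twisted around each other); `O.cut`: all boxes are cut (a cap and a cup without
crossings). `pcs O R` is the number of connected pieces of the diagram in which exactly the boxes of `R`
are cut, and `cutRank O R = |R| + 1 - pcs O R`, the rank function of a matroid.

A box `e` with `pcs O {e} = 2` is *nugatory*: cutting it disconnects the diagram. Two other boxes with
`pcs O {e, f} = 2` are *parallel*: cutting both disconnects the diagram; in a planar diagram the crossings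
of one can be moved to the other by flypes.

`Good O J`: the diagram is connected and closed, the connected pieces of `O.cut` have nonzero
determinants (the bracket of `O.cut` is not divisible by `(-A^2-A^{-2})^q` for the number `q` of its
pieces), the diagram remains connected when any two boxes of `J` are cut, and the boxes outside `J` join
the pieces of `O.cut` without cycles. `SPred r J`: `J` can be reduced to the empty set by deleting
coloops, deleting one of two parallel elements and contracting one of two elements in series, that is,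
the matroid is series-parallel.

`SpanAtMost s D`: the exponents of the normalised bracket of `D` lie in an interval of length `4 s`.

Proof: in a closed diagram (planar or not) parity shows that cutting one of two parallel boxes, the
other one, or both gives the same bracket up to the factor `-A^2-A^{-2}`; so the state sum depends only on
the sum of the two twist numbers, and the twist numbers of nugatory boxes only contribute units. The
theorems for one box in every class (MP_42db45_gt.SeriesParallelTwists, OddTwistNumbers) apply to the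
reduced twist numbers.
-/

set_option autoImplicit false

namespace Pool.Agent.Results.MP_7bc610_gt.FlypeClasses

open Finset LaurentPolynomial Pool.Agent.H891R2.Jones Pool.Agent.H891R2.MT Pool.Agent.H891R2.SI
open Pool.Agent.Q99.ET

open Classical in
/-- the reduced twist numbers: all crossings of the class of `t ∈ J` (the box `t` and the boxes `e ∈ A` with
`τ e = t`) are moved to the box `t`, the other boxes of `A` and the boxes of `L` become empty, the
remaining boxes are not changed -/
noncomputable def red {k : ℕ} (J A L : Finset (Fin k)) (τ : Fin k → Fin k) (n : Fin k → ℤ) : Fin k → ℤ := 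
  fun e => if e ∈ L then 0 else 
    if e ∈ J then n e + ∑ e' ∈ A.filter (fun e' => τ e' = e), n e' else 
      if e ∈ A then 0 else n e

theorem result {k : ℕ} (O : Sites k) (J A L : Finset (Fin k)) (τ : Fin k → Fin k) (hO : Good O J)
    -- the boxes of `A` are parallel to boxes of `J`, the boxes of `L` are nugatory
    (hA : ∀ e ∈ A, e ∉ J ∧ τ e ∈ J ∧ pcs O {e} = 1 ∧ pcs O {e, τ e} = 2) 
    (hL : ∀ e ∈ L, pcs O {e} = 2) (n : Fin k → ℤ) 
    (D : Diagram (O.P ⊕ Ribbon.Pt n)) (hD : Orients D (O.fill n)) (_ : D.IsClosed) :
    -- (1) up to a unit `± A ^ m` the polynomial depends only on the reduced twist numbers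
    (∀ (n' : Fin k → ℤ) (D' : Diagram (O.P ⊕ Ribbon.Pt n')), Orients D' (O.fill n') → D'.IsClosed → 
      red J A L τ n' = red J A L τ n → 
        ∃ m : ℤ, D'.fPoly = T m * D.fPoly ∨ D'.fPoly = -(T m * D.fPoly)) ∧
    -- (2) series-parallel: the Jones polynomial is not `1` if the total number of crossings (with signs) is
    -- large in every class and at most `B0` in every other box
    (∀ s B0 : ℕ, SPred (cutRank O) J → 
      (∀ t ∈ J, (2 * (2 * k + 1) ^ (k - 1) * (2 * O.crossings.length + 3 * k + s + B0) : ℤ) ≤ 
        |red J A L τ n t|) → 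
      (∀ e ∉ J, |red J A L τ n e| ≤ B0) → ¬ SpanAtMost s D ∧ D.fPoly ≠ 1) ∧
    -- (3) all matroids: totals near odd multiples of one large number
    (∀ (s m B0 : ℕ) (j : Fin k → ℤ), B0 * k + (2 * O.crossings.length + 3 * k + s) < m → 
      (∀ e, |red J A L τ n e - m * j e| ≤ B0) → (∀ e, Odd (j e) ↔ e ∈ J) → 
        ¬ SpanAtMost s D ∧ D.fPoly ≠ 1) := by
  classical
  have hk := hO.pos
  have hT : ∀ e ∈ J, pcs O {e} = 1 := by
    intro e he
    have := hO.two e he e he
    rwa [Finset.pair_eq_singleton] at this
  have hred : ∀ w : Fin k → ℤ, red J A L τ w = redL L (redA J A τ w) := by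
    intro w
    funext e
    unfold red redL redA
    rfl
  have hN : ∀ w : Fin k → ℤ, NN O (red J A L τ w) = 
      Pool.Agent.Y463.CD.zf (-(∑ e ∈ L, redA J A τ w e)) * NN O w := by
    intro w
    have h1 := NN_redA O hk hO.conn hO.closed J τ hT w A hA
    have h2 := NN_redL O hk hO.conn hO.closed (redA J A τ w) L hL
    rw [h1] at h2
    rw [h2, hred, ← mul_assoc, Pool.Agent.Y463.CD.zf_neg_mul, one_mul]
  have hone : ∀ s, ¬ SpanAtMost s D → ¬ SpanAtMost s D ∧ D.fPoly ≠ 1 := by
    intro s h
    refine ⟨h, fun h1 => h ⟨0, fun j hj => ?_⟩⟩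
    rw [h1] at hj
    have h2 := T4b.SIn.one j hj
    constructor
    · linarith [h2.1]
    · have h3 : (0 : ℤ) ≤ s := by positivity
      linarith [h2.2]
  have hsmall : ∀ s, SpanAtMost s D → SpanAtMost s (O.fill (red J A L τ n)).std := fun s h => 
    small_of_NN O hk s n _ _ (hN n) D hD h
  refine ⟨fun n' D' hD' _ hr => ?_, fun s B0 hsp hn hB => hone s fun h => ?_, 
    fun s m B0 j hm hn hj => hone s fun h => ?_⟩
  · have i1 : Nonempty (O.P ⊕ Ribbon.Pt n) := ⟨.inl (O.corner ⟨0, hk⟩ false false)⟩
    have i2 : Nonempty (O.P ⊕ Ribbon.Pt n') := ⟨.inl (O.corner ⟨0, hk⟩ false false)⟩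
    have b1 : D.bracket = (O.fill n).std.bracket := 
      Pool.Agent.H891R2.MT.T6.bracket_orients D (O.fill n) hD
    have b2 : D'.bracket = (O.fill n').std.bracket := 
      Pool.Agent.H891R2.MT.T6.bracket_orients D' (O.fill n') hD'
    obtain ⟨u, hu, e1⟩ := Pool.Agent.Y463.CD.fPoly_pow D
    obtain ⟨u', hu', e2⟩ := Pool.Agent.Y463.CD.fPoly_pow D'
    obtain ⟨v, hv, e3⟩ := hu.inv
    have h1 := hN n
    have h2 := hN n'
    rw [hr] at h2
    -- `zf` is a unit
    obtain ⟨z, hz, e4⟩ := (Pool.Agent.Y463.CD.zf_pow (-(∑ e ∈ L, redA J A τ n' e))).inv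
    have h3 : NN O n' = z * (Pool.Agent.Y463.CD.zf (-(∑ e ∈ L, redA J A τ n e)) * NN O n) := by
      rw [← h1, h2, ← mul_assoc, e4, one_mul]
    have h4 : D'.bracket = T (∑ e, n' e) * NN O n' := by
      unfold NN
      rw [b2, ← mul_assoc, ← T_add, add_neg_cancel, T_zero, one_mul]
    have h5 : NN O n = T (- ∑ e, n e) * D.bracket := by
      unfold NN
      rw [b1]
    have h6 : D.bracket = v * D.fPoly := by
      rw [e1, ← mul_assoc, e3, one_mul]
    have h7 : D'.fPoly = (u' * T (∑ e, n' e) * z * 
        Pool.Agent.Y463.CD.zf (-(∑ e ∈ L, redA J A τ n e)) * T (- ∑ e, n e) * v) * D.fPoly := by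
      rw [e2, h4, h3, h5, h6]
      ring
    have hU : Pool.Agent.H891R2.ZO.IsPow (u' * T (∑ e, n' e) * z * 
        Pool.Agent.Y463.CD.zf (-(∑ e ∈ L, redA J A τ n e)) * T (- ∑ e, n e) * v) := 
      (((((hu'.mul (Pool.Agent.H891R2.ZO.IsPow.T _)).mul hz).mul 
        (Pool.Agent.Y463.CD.zf_pow _)).mul (Pool.Agent.H891R2.ZO.IsPow.T _)).mul hv)
    obtain ⟨m, hm | hm⟩ := hU
    · exact ⟨m, Or.inl (by rw [h7, hm])⟩
    · exact ⟨m, Or.inr (by rw [h7, hm]; ring)⟩
  · exact hO.sp hsp s B0 (red J A L τ n) hn hB (O.fill (red J A L τ n)).std 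
      (Pool.Agent.Y463.CD.orients_std _) (hsmall s h)
  · exact hO.odd_multiples s B0 m j (red J A L τ n) hm hn hj (O.fill (red J A L τ n)).std 
      (Pool.Agent.Y463.CD.orients_std _) (hsmall s h)

end Pool.Agent.Results.MP_7bc610_gt.FlypeClasses
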