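import Pool.Agent.Q99.SML6.Main

/-!
# Nonlinear relations between the Jones polynomials of families of virtual diagrams

Diagrams (starting library `Pool.Agent.H891R2.Jones.Diagram`): `Diagram P` (oriented diagrams, planar or
not, that is, diagrams on surfaces or virtual diagrams; virtual crossings carry no data), `fPoly` (the
normalised bracket `f`; all loops count equally; `A` is `T 1`), `Outer m` (the part of a diagram outside
a box through which `m` strands run, with arbitrary directions), `Outer.close` (fills the rest of the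
box with vertical strands).

* `Word`: words in the letters `σ_j^{±1}`; `wperm m w`: the permutation of `w` (`w` is pure if it is `1`);
  `VWord`: words in the `σ_j^{±1}` and the virtual crossings; `familyV O w u n`: the product
  `w_0^{n_0} u_0 ⋯ w_{k-1}^{n_{k-1}} u_{k-1}` is drawn in the box of `O`;
* `adams e F` (in `Pool.Agent.Q99.SML6.Main`): the Laurent polynomial `F(A^e)`;
* `IsComb v F` (in `Pool.Agent.Q99.SML5.Eval`): `F` is a linear combination of the `v j` with rational
  coefficients (for `d = 0`: `F = 0`);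
* `order Φ C = ∑ ∏_i C_i ^ (α_i)`, the sum over the monomials `∏ x_i ^ (α_i)` of `Φ`.
-/

set_option autoImplicit false

namespace Pool.Agent.Results.MP_7bc610_gt.NonlinearRelations

open Finset LaurentPolynomial Pool.Agent.H891R2.Jones Q99.SML Q99.SML3 Q99.SML5 Q99.SML6

theorem isComb_zero_iff (v : Fin 0 → ℤ[T;T⁻¹]) (F : ℤ[T;T⁻¹]) : IsComb v F ↔ F = 0 := by
  constructor
  · rintro ⟨N, x, hN, h⟩
    rw [Finset.univ_eq_empty, Finset.sum_empty] at h
    apply LaurentPolynomial.ext
    intro e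
    have h1 : (N • F).coeff e = 0 := by rw [h]; rfl
    rw [AddMonoidAlgebra.coeff_smul, Finsupp.smul_apply, smul_eq_mul] at h1
    rcases mul_eq_zero.1 h1 with h2 | h2
    · exact absurd h2 hN
    · rw [h2]; rfl
  · rintro rfl
    exact ⟨1, fun i => i.elim0, one_ne_zero, by simp⟩

theorem adams_one (F : ℤ[T;T⁻¹]) : adams 1 F = F := by
  induction F using LaurentPolynomial.induction_on' with
  | add F G hF hG => rw [map_add, hF, hG]
  | C_mul_T n c =>
    have h1 : (C c : ℤ[T;T⁻¹]) = (c : ℤ[T;T⁻¹]) := by simp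
    rw [h1, map_mul, map_intCast, adams_T, one_mul]

theorem order_unit (C : ℕ) : order ((MvPolynomial.X 0 * MvPolynomial.X 1 - 1 :
    MvPolynomial (Fin 2) ℤ[T;T⁻¹])) (fun _ => C) ≤ C ^ 2 + 1 := by
  classical
  unfold order
  have h1 : (MvPolynomial.X 0 * MvPolynomial.X 1 - 1 : MvPolynomial (Fin 2) ℤ[T;T⁻¹]).support ⊆
      {Finsupp.single 0 1 + Finsupp.single 1 1, 0} := by
    refine (MvPolynomial.support_sub _ _ _).trans ?_
    have h2 : (MvPolynomial.X 0 * MvPolynomial.X 1 : MvPolynomial (Fin 2) ℤ[T;T⁻¹]) =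
        MvPolynomial.monomial (Finsupp.single 0 1 + Finsupp.single 1 1) 1 := by
      rw [MvPolynomial.X, MvPolynomial.X, MvPolynomial.monomial_mul, mul_one]
    have h3 : (1 : MvPolynomial (Fin 2) ℤ[T;T⁻¹]) = MvPolynomial.monomial 0 1 := rfl
    rw [h2, h3]
    intro α hα
    rw [Finset.mem_union] at hα
    rw [Finset.mem_insert, Finset.mem_singleton]
    rcases hα with h | h
    · exact Or.inl (Finset.mem_singleton.1 (MvPolynomial.support_monomial_subset h))
    · exact Or.inr (Finset.mem_singleton.1 (MvPolynomial.support_monomial_subset h))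
  refine (Finset.sum_le_sum_of_subset h1).trans ?_
  rw [Finset.sum_insert, Finset.sum_singleton]
  · apply le_of_eq
    simp [Fin.prod_univ_two, sq]
  · rw [Finset.mem_singleton]
    intro h
    have := DFunLike.congr_fun h 0
    simp at this

/-- Let `O_i`, `i < r`, be outsides of boxes with `m_i` strands (of diagrams on any surfaces), let
`w_{i,j}` be words in the `σ^{±1}` and `u_{i,j}` virtual braid words, `j < k`, let `P` be such that all
`w_{i,j}^P` are pure (`P = 1` if the `w_{i,j}` are pure), let `s ∈ ℤ^k`, and for `q ∈ ℤ^k` let `K_i(q)` be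
the virtual diagram obtained by drawing the product `w_{i,0}^{n_0} u_{i,0} ⋯ w_{i,k-1}^{n_{k-1}} u_{i,k-1}`,
`n = s + P q`, in the box of `O_i`. Let `C_i = C(m_i, ⌊m_i / 2⌋)` and `S(A) = ∑_j ∏_{l ≠ j} |A_l|` for finite
sets `A_0, …, A_{k-1}` of integers (`S(A) = 1` for `k = 1`).

* **Nonlinear relations.** Let `Φ` be a polynomial in `x_0, …, x_{r-1}` with coefficients in
  `ℤ[A^{±1}]`, let `e_i` be integers (`e_i = 1`: no substitution, `e_i = -1`: the mirror image), and let
  `F(q) = Φ(f(K_0(q))(A^{e_0}), …, f(K_{r-1}(q))(A^{e_{r-1}}))`. Let `V` be the space spanned by `d` Laurent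
  polynomials (`d = 0`: `V = 0`). Either `F(q) ∈ V` for all `q ∈ ℤ^k`, or for at most
  `((d + 1) order(Φ) - 1) S(A)` of the `q ∈ ∏ A_j`, where `order(Φ) = ∑ ∏_i C_i ^ (α_i)`, the sum over the
  monomials `∏ x_i ^ (α_i)` of `Φ`.
* **Units.** Either the Jones polynomial of every `K_i(q)`, `q ∈ ℤ^k`, is a unit `± A^n`, or this
  holds for at most `C_i² S(A)` of the `q ∈ ∏ A_j`. -/
theorem result {r k : ℕ} {m : Fin r → ℕ} (hm : ∀ i, 0 < m i) (O : ∀ i, Outer (m i))
    (w : Fin r → Fin k → Word) (u : Fin r → Fin k → VWord) (P : ℕ)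
    (hP : ∀ i j, wperm (m i) (w i j) ^ P = 1) (s : Fin k → ℤ) :
    (∀ (e : Fin r → ℤ) (Φ : MvPolynomial (Fin r) ℤ[T;T⁻¹]) (F : (Fin k → ℤ) → ℤ[T;T⁻¹]),
      (∀ q, F q = MvPolynomial.eval (fun i =>
        adams (e i) (familyV (O i) (w i) (u i) (s + (P : ℤ) • q)).close.fPoly) Φ) →
      ∀ (d : ℕ) (v : Fin d → ℤ[T;T⁻¹]), (∀ q, IsComb v (F q)) ∨
        ∀ A : Fin k → Finset ℤ, {q : Fin k → ℤ | (∀ j, q j ∈ A j) ∧ IsComb v (F q)}.ncard ≤
          ((d + 1) * order Φ (fun i => (m i).choose (m i / 2)) - 1) *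
            ∑ j, ∏ l ∈ univ.erase j, #(A l)) ∧
    (∀ i, (∀ q : Fin k → ℤ, ∃ n : ℤ,
        (familyV (O i) (w i) (u i) (s + (P : ℤ) • q)).close.fPoly = T n ∨
        (familyV (O i) (w i) (u i) (s + (P : ℤ) • q)).close.fPoly = -T n) ∨
      ∀ A : Fin k → Finset ℤ, {q : Fin k → ℤ | (∀ j, q j ∈ A j) ∧ ∃ n : ℤ,
          (familyV (O i) (w i) (u i) (s + (P : ℤ) • q)).close.fPoly = T n ∨
          (familyV (O i) (w i) (u i) (s + (P : ℤ) • q)).close.fPoly = -T n}.ncard ≤
        (m i).choose (m i / 2) ^ 2 * ∑ j, ∏ l ∈ univ.erase j, #(A l)) := by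
  classical
  refine ⟨fun e Φ F hF d v => ?_, fun i => ?_⟩
  · have h := count_rel hm O w u P hP s e Φ v
    have hF' : ∀ q, rel O w u e Φ (s + (P : ℤ) • q) = F q := fun q => (hF q).symm
    simp only [hF'] at h
    exact h
  · have h := count_rel (r := 2) (d := 0) (m := fun _ => m i) (fun _ => hm i) (fun _ => O i)
      (fun _ => w i) (fun _ => u i) P (fun _ j => hP i j) s ![1, -1]
      (MvPolynomial.X 0 * MvPolynomial.X 1 - 1) (fun x => x.elim0)
    have hiff : ∀ q : Fin k → ℤ, IsComb (fun x : Fin 0 => x.elim0)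
        (rel (fun _ : Fin 2 => O i) (fun _ => w i) (fun _ => u i) ![1, -1]
          (MvPolynomial.X 0 * MvPolynomial.X 1 - 1) (s + (P : ℤ) • q)) ↔
        ∃ n : ℤ, (familyV (O i) (w i) (u i) (s + (P : ℤ) • q)).close.fPoly = T n ∨
          (familyV (O i) (w i) (u i) (s + (P : ℤ) • q)).close.fPoly = -T n := by
      intro q
      have h1 : rel (fun _ : Fin 2 => O i) (fun _ => w i) (fun _ => u i) ![1, -1]
          (MvPolynomial.X 0 * MvPolynomial.X 1 - 1) (s + (P : ℤ) • q) =
          (familyV (O i) (w i) (u i) (s + (P : ℤ) • q)).close.fPoly *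
            adams (-1) (familyV (O i) (w i) (u i) (s + (P : ℤ) • q)).close.fPoly - 1 := by
        unfold rel
        rw [map_sub, map_mul, MvPolynomial.eval_X, MvPolynomial.eval_X, map_one]
        show adams 1 _ * adams (-1) _ - 1 = _
        rw [adams_one]
      rw [h1, isComb_zero_iff, sub_eq_zero]
      constructor
      · exact unit_of_mul _
      · rintro ⟨n, hn⟩
        exact mul_of_unit n _ hn
    simp only [hiff] at h
    rcases h with h | h
    · exact Or.inl h
    · refine Or.inr fun A => (h A).trans (Nat.mul_le_mul_right _ ?_)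
      have := order_unit ((m i).choose (m i / 2))
      omega

end Pool.Agent.Results.MP_7bc610_gt.NonlinearRelations
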