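import Pool.Agent.Q179.RV.Examples

/-!
# Random virtual diagrams with a given shadow and the Jones polynomial of the unknot

Definitions.  Starting library, `Pool.Agent.H832R2.JR.Defs`: `GaussWord N` (the shadow of a knot diagram with `N`
double points, given by the order in which they are passed; planarity is not required), `Crosses G i j` (the
chords of the double points `i` and `j` cross), `IsMatching G u v` (`m` pairwise disjoint pairs `{u k, v k}` of
crossing chords), `classes G` (the number of different nonempty sets `{j | Crosses G i j}`), `fPoly` (the
normalised Kauffman bracket of the classical choices).  `Pool.Agent.Q179.RV.Defs`: a choice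
`w : Fin N → Option Bool` makes every double point a virtual crossing (`none`), a positive or a negative
classical crossing (`some true`, `some false`); `fV G w` is the normalised Kauffman bracket of this virtual knot
diagram, a sum over the states of the classical crossings (all loops count equally), `f = (-A^{-3})^writhe ⟨ ⟩`.
`PlaneCriterion G` (in `Pool.Agent.Q179.HS.Planar`): the combinatorial criterion for the Gauss words of closed
curves in the plane.

Proof.  The second moment of the bracket of a virtual diagram is a constant, which depends on the set of the
virtual crossings in an uncontrolled way, minus `12 ∑ w_i w_j` (sum over the ordered pairs of crossing chords,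
`w_i = 0` at virtual crossings).  Hence for a given set of virtual crossings the signs have to give a
quadratic form a given value.  For two crossing chords at most seven of the nine choices do this.  If there are
many disjoint crossing pairs, many of them are classical (Chebyshev) and the quadratic Littlewood-Offord
inequality of the starting library applies.  Otherwise the form is linear in the signs of most double points;
each coefficient is a sum of independent variables with values `-1, 0, 1`, which is zero with probability at most
`1/3`, and the Littlewood-Offord inequality for the classical ones among the others gives `1/3 + O(n^(-1/2))`.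
The extremal shadows are `1 2 … n a b n … 2 1 a b`: if `a` and `b` are both virtual or have opposite signs, then
the other chords do not cross each other.
-/

set_option autoImplicit false

namespace Pool.Agent.Results.MP_7bc610_gt.RandomVirtualDiagrams

open LaurentPolynomial Pool.Agent.H832R2.JR Pool.Agent.Q179.HS Pool.Agent.Q179.RV

/-- Let `G` be a knot shadow with `N` double points; each of the `3^N` choices makes every double point a
positive, a negative or a virtual crossing.  Let `F` be any Laurent polynomial, for instance `F = 1`.

* If two chords cross, at most `7/9` of the `3^N` virtual diagrams have the normalised bracket `F`.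
* If `n ≥ 1` chords cross some other chord, at most a proportion `1/3 + 12 n^(-1/8)` has this bracket.
* If there are `m` pairwise disjoint pairs of crossing chords, at most a proportion `6 m^(-1/8)`, and if `t` is
  the number of classes of chords which cross some chord (two chords being in one class if they cross the same
  chords), at most a proportion `9 t^(-1/8)` has this bracket.
* The constant `7/9` is sharp: there is a shadow with two crossing chords for which exactly seven of the nine
  choices give the bracket `1`.
* The constant `1/3` is sharp, also for the shadows of plane curves: for every `n` there is a shadow with `n + 2`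
  double points, for odd `n` satisfying the criterion for Gauss words of plane curves, every chord crossing
  another one, for which at least one third of the choices give the bracket `1`.
* For the choices without virtual crossings `fV` is the normalised bracket `fPoly` of the starting library. -/
theorem result :
    (∀ (N : ℕ) (G : GaussWord N) (F : ℤ[T;T⁻¹]), (∃ i j, Crosses G i j) →
      9 * Nat.card {w : Fin N → Option Bool // fV G w = F} ≤ 7 * 3 ^ N) ∧
    (∀ (N : ℕ) (G : GaussWord N) (F : ℤ[T;T⁻¹]), (∃ i j, Crosses G i j) →
      (Nat.card {w : Fin N → Option Bool // fV G w = F} : ℝ) ≤
        (1 / 3 + 12 * (Nat.card {i : Fin N // ∃ j, Crosses G i j} : ℝ) ^ (-(1 / 8 : ℝ))) * 3 ^ N) ∧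
    (∀ (N : ℕ) (G : GaussWord N) (F : ℤ[T;T⁻¹]),
      (∀ (m : ℕ) (u v : Fin m → Fin N), IsMatching G u v →
        (Nat.card {w : Fin N → Option Bool // fV G w = F} : ℝ) * (m : ℝ) ^ (1 / 8 : ℝ) ≤ 6 * 3 ^ N) ∧
      (Nat.card {w : Fin N → Option Bool // fV G w = F} : ℝ) * (classes G : ℝ) ^ (1 / 8 : ℝ) ≤ 9 * 3 ^ N) ∧
    (∃ G : GaussWord 2, (∀ i, ∃ j, Crosses G i j) ∧
      Nat.card {w : Fin 2 → Option Bool // fV G w = 1} = 7) ∧
    (∀ n : ℕ, ∃ G : GaussWord (n + 2), (Odd n → PlaneCriterion G) ∧ (∀ i, ∃ j, Crosses G i j) ∧
      3 ^ (n + 1) ≤ Nat.card {w : Fin (n + 2) → Option Bool // fV G w = 1}) ∧
    (∀ (N : ℕ) (G : GaussWord N) (w : Fin N → Bool), fV G (fun c => some (w c)) = fPoly G w) :=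
  ⟨fun _ G F ⟨i, j, h⟩ => seven_ninths G F i j h,
    fun _ G F h => bound_third G F h,
    fun _ G F => ⟨fun _ u v h => bound_match G F u v h, bound_classes G F⟩,
    ⟨twWord 0, tw_all 0, tw_seven⟩,
    fun n => ⟨twWord n, tw_plane n, tw_all n, tw_many n⟩,
    fun _ G w => fV_some G w⟩

end Pool.Agent.Results.MP_7bc610_gt.RandomVirtualDiagrams
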